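import Mathlib

set_option autoImplicit false
open Filter Topology
open scoped ENNReal lp

namespace Pool.Agent.Helper58

/-- signed power `t |t|^(s-1)`. -/
noncomputable def mz (s t : ℝ) : ℝ := t * |t| ^ (s - 1)

theorem abs_mz {s : ℝ} (hs : 1 ≤ s) (t : ℝ) : |mz s t| = |t| ^ s := by
  unfold mz
  rcases eq_or_ne t 0 with h | h
  · subst h
    rw [zero_mul, abs_zero, Real.zero_rpow (by linarith)]
  · have h' : 0 < |t| := abs_pos.2 h
    rw [abs_mul, abs_of_nonneg (Real.rpow_nonneg (abs_nonneg t) _), Real.rpow_sub_one h'.ne',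
      mul_div_cancel₀ _ h'.ne']

theorem mz_aux {δ u v : ℝ} (hδ0 : 0 ≤ δ) (hδ1 : δ ≤ 1) (hv : 0 ≤ v) (huv : v ≤ u) :
    v * (u ^ δ - v ^ δ) ≤ u ^ δ * (u - v) := by
  have hu : 0 ≤ u := hv.trans huv
  have h1 : v * u ^ δ ≤ v ^ δ * u := by
    rcases eq_or_lt_of_le hv with h | h
    · rw [← h, zero_mul]
      positivity
    · have hu' : 0 < u := h.trans_le huv
      have e1 : v = v ^ δ * v ^ (1 - δ) := by
        rw [← Real.rpow_add h]; norm_num
      have e2 : u = u ^ δ * u ^ (1 - δ) := by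
        rw [← Real.rpow_add hu']; norm_num
      have e3 : v ^ (1 - δ) ≤ u ^ (1 - δ) := Real.rpow_le_rpow hv huv (by linarith)
      calc v * u ^ δ = v ^ δ * v ^ (1 - δ) * u ^ δ := by rw [← e1]
        _ ≤ v ^ δ * u ^ (1 - δ) * u ^ δ := by gcongr
        _ = v ^ δ * (u ^ δ * u ^ (1 - δ)) := by ring
        _ = v ^ δ * u := by rw [← e2]
  have h2 : v ^ δ ≤ u ^ δ := Real.rpow_le_rpow hv huv hδ0
  calc v * (u ^ δ - v ^ δ) = v * u ^ δ - v * v ^ δ := by ring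
    _ ≤ v ^ δ * u - v * v ^ δ := by linarith
    _ = v ^ δ * (u - v) := by ring
    _ ≤ u ^ δ * (u - v) := by
      apply mul_le_mul_of_nonneg_right h2
      linarith

theorem mz_upper_aux {s a b : ℝ} (hs1 : 1 ≤ s) (hs2 : s ≤ 2) (hab : |b| ≤ |a|) :
    |mz s a - mz s b| ≤ 2 * |a| ^ (s - 1) * |a - b| := by
  unfold mz
  have h1 := mz_aux (δ := s - 1) (by linarith) (by linarith) (abs_nonneg b) hab
  have h2 : |b| ^ (s - 1) ≤ |a| ^ (s - 1) :=
    Real.rpow_le_rpow (abs_nonneg b) hab (by linarith)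
  have h3 : |a| - |b| ≤ |a - b| := abs_sub_abs_le_abs_sub a b
  have h4 : 0 ≤ |a| ^ (s - 1) := Real.rpow_nonneg (abs_nonneg a) _
  calc |a * |a| ^ (s - 1) - b * |b| ^ (s - 1)|
      = |(a - b) * |a| ^ (s - 1) + b * (|a| ^ (s - 1) - |b| ^ (s - 1))| := by ring_nf
    _ ≤ |(a - b) * |a| ^ (s - 1)| + |b * (|a| ^ (s - 1) - |b| ^ (s - 1))| := abs_add_le _ _
    _ = |a - b| * |a| ^ (s - 1) + |b| * (|a| ^ (s - 1) - |b| ^ (s - 1)) := by
        rw [abs_mul, abs_mul, abs_of_nonneg h4, abs_of_nonneg (sub_nonneg.2 h2)]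
    _ ≤ |a - b| * |a| ^ (s - 1) + |a| ^ (s - 1) * (|a| - |b|) := by linarith
    _ ≤ |a - b| * |a| ^ (s - 1) + |a| ^ (s - 1) * |a - b| := by gcongr
    _ = 2 * |a| ^ (s - 1) * |a - b| := by ring

theorem mz_upper {s : ℝ} (hs1 : 1 ≤ s) (hs2 : s ≤ 2) (a b : ℝ) :
    |mz s a - mz s b| ≤ 2 * ((|a| + |b|) ^ (s - 1) * |a - b|) := by
  rcases le_total |b| |a| with h | h
  · refine (mz_upper_aux hs1 hs2 h).trans ?_
    rw [mul_assoc]
    have : |a| ^ (s - 1) ≤ (|a| + |b|) ^ (s - 1) :=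
      Real.rpow_le_rpow (abs_nonneg a) (by linarith [abs_nonneg b]) (by linarith)
    gcongr
  · rw [abs_sub_comm]
    refine (mz_upper_aux hs1 hs2 h).trans ?_
    rw [mul_assoc, abs_sub_comm b a]
    have : |b| ^ (s - 1) ≤ (|a| + |b|) ^ (s - 1) :=
      Real.rpow_le_rpow (abs_nonneg b) (by linarith [abs_nonneg a]) (by linarith)
    gcongr

theorem mz_nonneg_eq {s t : ℝ} (hs : 1 ≤ s) (ht : 0 ≤ t) : mz s t = t ^ s := by
  have h := abs_mz hs t
  rw [abs_of_nonneg ht] at h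
  rw [← h, abs_of_nonneg]
  unfold mz
  positivity

theorem mz_neg (s t : ℝ) : mz s (-t) = - mz s t := by
  unfold mz
  rw [abs_neg, neg_mul]

theorem mz_lower_aux {s a b : ℝ} (hs1 : 1 ≤ s) (hs2 : s ≤ 2) (hab : b ≤ a) :
    |a - b| ^ s ≤ 2 * (mz s a - mz s b) := by
  have same : ∀ u v : ℝ, 0 ≤ v → v ≤ u → (u - v) ^ s ≤ 2 * (u ^ s - v ^ s) := by
    intro u v hv huv
    have h := Real.add_rpow_le_rpow_add (p := s) (a := u - v) (b := v) (by linarith) hv hs1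
    rw [sub_add_cancel] at h
    have h2 : 0 ≤ (u - v) ^ s := Real.rpow_nonneg (by linarith) _
    linarith
  rw [abs_of_nonneg (sub_nonneg.2 hab)]
  rcases le_total 0 b with hb | hb
  · rw [mz_nonneg_eq hs1 hb, mz_nonneg_eq hs1 (hb.trans hab)]
    exact same a b hb hab
  · rcases le_total 0 a with ha | ha
    · have h1 : mz s b = - (-b) ^ s := by
        rw [← mz_nonneg_eq hs1 (neg_nonneg.2 hb), mz_neg, neg_neg]
      rw [h1, mz_nonneg_eq hs1 ha, sub_neg_eq_add]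
      have h := NNReal.rpow_add_le_mul_rpow_add_rpow ⟨a, ha⟩ ⟨-b, neg_nonneg.2 hb⟩ hs1
      have h' : (a + -b) ^ s ≤ 2 ^ (s - 1) * (a ^ s + (-b) ^ s) := by exact_mod_cast h
      have h2 : (2 : ℝ) ^ (s - 1) ≤ 2 := by
        calc (2 : ℝ) ^ (s - 1) ≤ 2 ^ (1 : ℝ) :=
              Real.rpow_le_rpow_of_exponent_le (by norm_num) (by linarith)
          _ = 2 := Real.rpow_one 2
      have h3 : 0 ≤ a ^ s + (-b) ^ s := by
        have := Real.rpow_nonneg ha s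
        have := Real.rpow_nonneg (neg_nonneg.2 hb) s
        linarith
      rw [sub_eq_add_neg]
      refine h'.trans ?_
      gcongr
    · have h1 : mz s b = - (-b) ^ s := by
        rw [← mz_nonneg_eq hs1 (neg_nonneg.2 hb), mz_neg, neg_neg]
      have h2 : mz s a = - (-a) ^ s := by
        rw [← mz_nonneg_eq hs1 (neg_nonneg.2 ha), mz_neg, neg_neg]
      rw [h1, h2]
      have h := same (-b) (-a) (neg_nonneg.2 ha) (neg_le_neg hab)
      have e : -b - -a = a - b := by ring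
      rw [e] at h
      linarith

theorem mz_lower {s : ℝ} (hs1 : 1 ≤ s) (hs2 : s ≤ 2) (a b : ℝ) :
    |a - b| ^ s ≤ 2 * |mz s a - mz s b| := by
  rcases le_total b a with h | h
  · exact (mz_lower_aux hs1 hs2 h).trans (by gcongr; exact le_abs_self _)
  · rw [abs_sub_comm a b, abs_sub_comm (mz s a)]
    exact (mz_lower_aux hs1 hs2 h).trans (by gcongr; exact le_abs_self _)

section MazurMap

variable {s : ℝ} {Q : ℝ≥0∞}

instance fact_one_le_four' : Fact ((1 : ℝ≥0∞) ≤ 4) := ⟨by norm_num⟩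

theorem mz_pow (hs1 : 1 ≤ s) (hQ : s * Q.toReal = 4) (t : ℝ) :
    ‖mz s t‖ ^ Q.toReal = ‖t‖ ^ (4 : ℝ≥0∞).toReal := by
  rw [Real.norm_eq_abs, Real.norm_eq_abs, abs_mz hs1, ← Real.rpow_mul (abs_nonneg t), hQ]
  simp

theorem mz_memlp (hs1 : 1 ≤ s) (hQ : s * Q.toReal = 4) (x : lp (fun _ : ℕ => ℝ) 4) :
    Memℓp (fun i => mz s (x i)) Q := by
  apply memℓp_gen
  simp only [mz_pow hs1 hQ]
  exact (lp.memℓp x).summable (by norm_num)

/-- The Mazur map `ℓ_4 → ℓ_Q`. -/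
noncomputable def mazur (hs1 : 1 ≤ s) (hQ : s * Q.toReal = 4) (x : lp (fun _ : ℕ => ℝ) 4) :
    lp (fun _ : ℕ => ℝ) Q := ⟨fun i => mz s (x i), mz_memlp hs1 hQ x⟩

theorem mazur_apply (hs1 : 1 ≤ s) (hQ : s * Q.toReal = 4) (x : lp (fun _ : ℕ => ℝ) 4) (i : ℕ) :
    mazur hs1 hQ x i = mz s (x i) := rfl

variable [Fact (1 ≤ Q)]

theorem mazur_norm (hs1 : 1 ≤ s) (hQ : s * Q.toReal = 4) (x : lp (fun _ : ℕ => ℝ) 4) :
    ‖mazur hs1 hQ x‖ = ‖x‖ ^ s := by
  have hQ0 : 0 < Q.toReal := by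
    by_contra h
    have h0 : Q.toReal = 0 := le_antisymm (not_lt.1 h) ENNReal.toReal_nonneg
    rw [h0, mul_zero] at hQ
    norm_num at hQ
  have h1 := lp.norm_rpow_eq_tsum hQ0 (mazur hs1 hQ x)
  have h2 := lp.norm_rpow_eq_tsum (p := 4) (by norm_num) x
  simp only [mazur_apply, mz_pow hs1 hQ] at h1
  rw [← h2] at h1
  have h3 : ‖x‖ ^ (4 : ℝ≥0∞).toReal = (‖x‖ ^ s) ^ Q.toReal := by
    rw [← Real.rpow_mul (norm_nonneg _), hQ]
    simp
  rw [h3] at h1
  exact (Real.rpow_left_inj (norm_nonneg _) (by positivity) hQ0.ne').1 h1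

theorem mazur_upper (hs1 : 1 < s) (hs2 : s ≤ 2) (hQ : s * Q.toReal = 4)
    (x y : lp (fun _ : ℕ => ℝ) 4) :
    ‖mazur hs1.le hQ x - mazur hs1.le hQ y‖ ≤ 2 * ((‖x‖ + ‖y‖) ^ (s - 1) * ‖x - y‖) := by
  have hQ0 : 0 < Q.toReal := by
    by_contra h
    have h0 : Q.toReal = 0 := le_antisymm (not_lt.1 h) ENNReal.toReal_nonneg
    rw [h0, mul_zero] at hQ
    norm_num at hQ
  apply lp.norm_le_of_forall_sum_le hQ0 (by positivity)
  intro F
  have hHT : Real.HolderTriple (4 / (s - 1)) 4 Q.toReal := by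
    refine ⟨?_, by apply div_pos; norm_num; linarith, by norm_num⟩
    rw [inv_div]
    have hs0 : s ≠ 0 := by linarith
    have : Q.toReal = 4 / s := by rw [eq_div_iff hs0, mul_comm]; exact hQ
    rw [this, inv_div]
    ring
  have h1 := Real.Lr_rpow_le_Lp_mul_Lq_of_nonneg F (f := fun i => (|x i| + |y i|) ^ (s - 1))
    (g := fun i => |x i - y i|) hHT (fun i _ => by positivity) (fun i _ => abs_nonneg _)
  have h2 : ∑ i ∈ F, ((|x i| + |y i|) ^ (s - 1)) ^ (4 / (s - 1)) ≤ (‖x‖ + ‖y‖) ^ (4 : ℝ) := by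
    have e1 : ∀ i, ((|x i| + |y i|) ^ (s - 1)) ^ (4 / (s - 1)) =
        ‖(lp.toNorm x + lp.toNorm y) i‖ ^ (4 : ℝ≥0∞).toReal := by
      intro i
      rw [← Real.rpow_mul (by positivity), mul_div_cancel₀ _ (by linarith : s - 1 ≠ 0)]
      have : (lp.toNorm x + lp.toNorm y) i = |x i| + |y i| := by
        rw [lp.coeFn_add, Pi.add_apply]
        rfl
      rw [this, Real.norm_eq_abs, abs_of_nonneg (show 0 ≤ |x i| + |y i| by positivity)]
      simp
    simp only [e1]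
    refine (lp.sum_rpow_le_norm_rpow (by norm_num) _ F).trans ?_
    have h3 : ‖lp.toNorm x + lp.toNorm y‖ ≤ ‖x‖ + ‖y‖ := by
      refine (norm_add_le _ _).trans ?_
      rw [lp.norm_toNorm, lp.norm_toNorm]
    have h4 := Real.rpow_le_rpow (norm_nonneg _) h3 (by norm_num : (0 : ℝ) ≤ 4)
    simpa using h4
  have h3 : ∑ i ∈ F, |x i - y i| ^ (4 : ℝ) ≤ ‖x - y‖ ^ (4 : ℝ) := by
    have := lp.sum_rpow_le_norm_rpow (p := 4) (by norm_num) (x - y) F
    simpa [Real.norm_eq_abs] using this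
  calc ∑ i ∈ F, ‖(mazur hs1.le hQ x - mazur hs1.le hQ y) i‖ ^ Q.toReal
      ≤ ∑ i ∈ F, (2 * ((|x i| + |y i|) ^ (s - 1) * |x i - y i|)) ^ Q.toReal := by
        apply Finset.sum_le_sum
        intro i _
        apply Real.rpow_le_rpow (norm_nonneg _) _ hQ0.le
        rw [lp.coeFn_sub, Pi.sub_apply, Real.norm_eq_abs]
        exact mz_upper hs1.le hs2 (x i) (y i)
    _ = 2 ^ Q.toReal * ∑ i ∈ F, ((|x i| + |y i|) ^ (s - 1) * |x i - y i|) ^ Q.toReal := by
        rw [Finset.mul_sum]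
        apply Finset.sum_congr rfl
        intro i _
        rw [Real.mul_rpow (by norm_num) (by positivity)]
    _ ≤ 2 ^ Q.toReal * (((‖x‖ + ‖y‖) ^ (4 : ℝ)) ^ (Q.toReal / (4 / (s - 1))) *
          (‖x - y‖ ^ (4 : ℝ)) ^ (Q.toReal / 4)) := by
        gcongr
        refine h1.trans ?_
        gcongr
    _ = (2 * ((‖x‖ + ‖y‖) ^ (s - 1) * ‖x - y‖)) ^ Q.toReal := by
        rw [Real.mul_rpow (by norm_num) (by positivity), Real.mul_rpow (by positivity) (by positivity)]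
        congr 1
        rw [← Real.rpow_mul (by positivity), ← Real.rpow_mul (by positivity),
          ← Real.rpow_mul (by positivity)]
        congr 2
        · have : s - 1 ≠ 0 := by linarith
          field_simp
        · field_simp

theorem mazur_lower (hs1 : 1 ≤ s) (hs2 : s ≤ 2) (hQ : s * Q.toReal = 4)
    (x y : lp (fun _ : ℕ => ℝ) 4) :
    ‖x - y‖ ^ s ≤ 2 * ‖mazur hs1 hQ x - mazur hs1 hQ y‖ := by
  have hQ0 : 0 < Q.toReal := by
    by_contra h
    have h0 : Q.toReal = 0 := le_antisymm (not_lt.1 h) ENNReal.toReal_nonneg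
    rw [h0, mul_zero] at hQ
    norm_num at hQ
  set z := mazur hs1 hQ x - mazur hs1 hQ y with hz
  have h1 : ‖x - y‖ ^ (4 : ℝ) ≤ (2 * ‖z‖) ^ Q.toReal := by
    have h2 := lp.hasSum_norm (p := 4) (by norm_num) (x - y)
    have h3 := (lp.hasSum_norm hQ0 z).mul_left (2 ^ Q.toReal)
    have h4 := hasSum_le (fun i => ?_) h2 h3
    · rw [Real.mul_rpow (by norm_num) (norm_nonneg _)]
      simpa using h4
    · rw [← Real.mul_rpow (by norm_num) (norm_nonneg _)]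
      have e : ‖(x - y) i‖ ^ (4 : ℝ≥0∞).toReal = (|x i - y i| ^ s) ^ Q.toReal := by
        rw [← Real.rpow_mul (abs_nonneg _), hQ, lp.coeFn_sub, Pi.sub_apply, Real.norm_eq_abs]
        simp
      rw [e]
      apply Real.rpow_le_rpow (by positivity) _ hQ0.le
      have := mz_lower hs1 hs2 (x i) (y i)
      rw [hz, lp.coeFn_sub, Pi.sub_apply, Real.norm_eq_abs]
      exact this
  have h5 : ‖x - y‖ ^ (4 : ℝ) = (‖x - y‖ ^ s) ^ Q.toReal := by
    rw [← Real.rpow_mul (norm_nonneg _), hQ]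
  rw [h5] at h1
  exact (Real.rpow_le_rpow_iff (by positivity) (by positivity) hQ0).1 h1

end MazurMap

end Pool.Agent.Helper58
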