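import Mathlib

set_option autoImplicit false
open Filter Topology
open scoped ENNReal lp

namespace Pool.Agent.Helper58

section Abs

/-- exact Brezis-Lieb type identity for a finitely supported perturbation -/
theorem lp_norm_finite_pert {P : ℝ≥0∞} [Fact (1 ≤ P)] (hP : 0 < P.toReal)
    (D w : lp (fun _ : ℕ => ℝ) P) (F : Finset ℕ) :
    ‖(∑ j ∈ F, lp.single P j (D j)) + w‖ ^ P.toReal - ‖w‖ ^ P.toReal =
      ∑ j ∈ F, (|D j + w j| ^ P.toReal - |w j| ^ P.toReal) := by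
  set DF : lp (fun _ : ℕ => ℝ) P := ∑ j ∈ F, lp.single P j (D j) with hDF
  have hDFj : ∀ j, DF j = if j ∈ F then D j else 0 := by
    intro j
    rw [hDF, lp.coeFn_sum, Finset.sum_apply]
    simp only [lp.single_apply]
    rw [Finset.sum_pi_single]
  have h1 := (lp.hasSum_norm hP (DF + w)).sub (lp.hasSum_norm hP w)
  have h2 : ∀ j ∉ F, (‖(DF + w) j‖ ^ P.toReal - ‖w j‖ ^ P.toReal) = 0 := by
    intro j hj
    rw [lp.coeFn_add, Pi.add_apply, hDFj, if_neg hj, zero_add, sub_self]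
  have h3 : HasSum (fun j => ‖(DF + w) j‖ ^ P.toReal - ‖w j‖ ^ P.toReal)
      (∑ j ∈ F, (‖(DF + w) j‖ ^ P.toReal - ‖w j‖ ^ P.toReal)) := hasSum_sum_of_ne_finset_zero h2
  rw [h1.unique h3]
  apply Finset.sum_congr rfl
  intro j hj
  rw [lp.coeFn_add, Pi.add_apply, hDFj, if_pos hj, Real.norm_eq_abs, Real.norm_eq_abs]

theorem rpow_unif (P M : ℝ) (hP : 0 < P) {ε : ℝ} (hε : 0 < ε) :
    ∃ δ > 0, ∀ a b : ℝ, 0 ≤ a → a ≤ M → 0 ≤ b → b ≤ M → |a - b| < δ → |a ^ P - b ^ P| < ε := by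
  have hc : ContinuousOn (fun t : ℝ => t ^ P) (Set.Icc 0 M) :=
    (Real.continuous_rpow_const hP.le).continuousOn
  have hu := isCompact_Icc.uniformContinuousOn_of_continuous hc
  rw [Metric.uniformContinuousOn_iff] at hu
  obtain ⟨δ, hδ, h⟩ := hu ε hε
  refine ⟨δ, hδ, fun a b ha haM hb hbM hab => ?_⟩
  exact h a ⟨ha, haM⟩ b ⟨hb, hbM⟩ (by rwa [Real.dist_eq])

/-- asymptotic superadditivity in `ℓ_P`. -/
theorem lp_superadd {P : ℝ≥0∞} [Fact (1 ≤ P)] (hPt : P ≠ ⊤)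
    (D : lp (fun _ : ℕ => ℝ) P) (w : ℕ → lp (fun _ : ℕ => ℝ) P) (M : ℝ) (hM : ∀ i, ‖w i‖ ≤ M)
    (hw : ∀ j, Tendsto (fun i => w i j) atTop (𝓝 0)) {ε : ℝ} (hε : 0 < ε) :
    ∀ᶠ i in atTop, ‖D‖ ^ P.toReal + ‖w i‖ ^ P.toReal - ε < ‖D + w i‖ ^ P.toReal := by
  have hP : 0 < P.toReal := ENNReal.toReal_pos (zero_lt_one.trans_le Fact.out).ne' hPt
  obtain ⟨δ, hδ, hunif⟩ := rpow_unif P.toReal (‖D‖ + M + 1) hP (ε := ε / 3) (by linarith)
  have hM0 : 0 ≤ M := (norm_nonneg _).trans (hM 0)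
  have hsum := lp.hasSum_single hPt D
  rw [HasSum, Metric.tendsto_nhds] at hsum
  obtain ⟨F, hF⟩ := (hsum (min δ 1) (lt_min hδ one_pos)).exists
  set DF : lp (fun _ : ℕ => ℝ) P := ∑ j ∈ F, lp.single P j (D j) with hDF
  have hd : ‖DF - D‖ < min δ 1 := by rwa [dist_eq_norm] at hF
  have hd1 : ‖DF - D‖ < δ := hd.trans_le (min_le_left _ _)
  have hd2 : ‖DF - D‖ < 1 := hd.trans_le (min_le_right _ _)
  have hDFn : ‖DF‖ ≤ ‖D‖ + 1 := by
    have : ‖DF‖ ≤ ‖DF - D‖ + ‖D‖ := by simpa using norm_add_le (DF - D) D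
    linarith
  have key : Tendsto (fun i => ∑ j ∈ F, (|D j + w i j| ^ P.toReal - |w i j| ^ P.toReal)) atTop
      (𝓝 (∑ j ∈ F, (|D j + 0| ^ P.toReal - |(0 : ℝ)| ^ P.toReal))) := by
    apply tendsto_finsetSum
    intro j _
    apply Tendsto.sub
    · exact ((tendsto_const_nhds.add (hw j)).abs).rpow_const (Or.inr hP.le)
    · exact ((hw j).abs).rpow_const (Or.inr hP.le)
  have hval : (∑ j ∈ F, (|D j + 0| ^ P.toReal - |(0 : ℝ)| ^ P.toReal)) = ‖DF‖ ^ P.toReal := by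
    rw [hDF, lp.norm_sum_single hP]
    apply Finset.sum_congr rfl
    intro j _
    simp [Real.zero_rpow hP.ne']
  rw [hval] at key
  have hev : ∀ᶠ i in atTop, ‖DF‖ ^ P.toReal - ε / 3 <
      ∑ j ∈ F, (|D j + w i j| ^ P.toReal - |w i j| ^ P.toReal) :=
    key.eventually (lt_mem_nhds (by linarith))
  filter_upwards [hev] with i hi
  rw [← lp_norm_finite_pert hP D (w i) F] at hi
  have h1 := hunif ‖DF‖ ‖D‖ (norm_nonneg _) (by linarith) (norm_nonneg _) (by linarith)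
    ((abs_norm_sub_norm_le _ _).trans_lt hd1)
  have h2 := hunif ‖DF + w i‖ ‖D + w i‖ (norm_nonneg _)
    ((norm_add_le _ _).trans (by linarith [hM i])) (norm_nonneg _)
    ((norm_add_le _ _).trans (by linarith [hM i]))
    ((abs_norm_sub_norm_le _ _).trans_lt (by
      have : DF + w i - (D + w i) = DF - D := by abel
      rw [this]; exact hd1))
  rw [abs_lt] at h1 h2
  linarith [h1.1, h1.2, h2.1, h2.2]

end Abs

section Main

variable (P : ℕ → ℝ≥0∞) [∀ n, Fact (1 ≤ P n)]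

/-- The space `ℓ_{P n}`. -/
abbrev EE (n : ℕ) : Type := lp (fun _ : ℕ => ℝ) (P n)

/-- The `ℓ_2`-sum of the spaces `ℓ_{P n}`. -/
abbrev YY : Type := lp (fun n : ℕ => EE P n) 2

/-- The space `ℓ_4`. -/
abbrev XX : Type := lp (fun _ : ℕ => ℝ) 4

instance fact_one_le_two : Fact ((1 : ℝ≥0∞) ≤ 2) := ⟨by norm_num⟩
instance fact_one_le_four : Fact ((1 : ℝ≥0∞) ≤ 4) := ⟨by norm_num⟩

variable {P}

/-- the part of the squared norm carried by the components `n < N` -/
noncomputable def AA (N : ℕ) (y : YY P) : ℝ := ∑ n ∈ Finset.range N, ‖y n‖ ^ 2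

/-- the potential -/
noncomputable def PSI (N : ℕ) (y : YY P) : ℝ := ∑ n ∈ Finset.range N, ‖y n‖ ^ (P n).toReal

/-- tail projection -/
noncomputable def TL (N : ℕ) (y : YY P) : YY P :=
  y - ∑ n ∈ Finset.range N, lp.single 2 n (y n)

theorem TL_apply (N : ℕ) (y : YY P) (n : ℕ) : TL N y n = if n < N then 0 else y n := by
  unfold TL
  rw [lp.coeFn_sub, Pi.sub_apply, lp.coeFn_sum, Finset.sum_apply]
  simp only [lp.single_apply]
  rw [Finset.sum_pi_single]
  by_cases h : n < N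
  · simp [h]
  · simp [h]

theorem TL_add (N : ℕ) (y z : YY P) : TL N (y + z) = TL N y + TL N z := by
  apply lp.ext
  funext n
  rw [TL_apply, lp.coeFn_add, lp.coeFn_add, Pi.add_apply, Pi.add_apply, TL_apply, TL_apply]
  split_ifs <;> simp

theorem norm_TL_sq (N : ℕ) (y : YY P) : ‖TL N y‖ ^ 2 = ‖y‖ ^ 2 - AA N y := by
  have := lp.norm_compl_sum_single (p := 2) (by norm_num) y (Finset.range N)
  simp only [ENNReal.toReal_ofNat, Real.rpow_ofNat] at this
  exact this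

/-- a doubly finitely supported element approximates. -/
theorem exists_finite_approx (hPt : ∀ n, P n ≠ ⊤) (D : YY P) {η : ℝ} (hη : 0 < η) :
    ∃ (F : Finset ℕ) (G : ℕ → Finset ℕ),
      ‖D - ∑ n ∈ F, lp.single 2 n (∑ j ∈ G n, lp.single (P n) j (D n j))‖ < η := by
  have h1 := lp.hasSum_single (p := 2) (by norm_num) D
  rw [HasSum, Metric.tendsto_nhds] at h1
  obtain ⟨F, hF⟩ := (h1 (η / 2) (by linarith)).exists
  have h2 : ∀ n, ∃ G : Finset ℕ,
      ‖D n - ∑ j ∈ G, lp.single (P n) j (D n j)‖ < η / (2 * (F.card + 1)) := by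
    intro n
    have h3 := lp.hasSum_single (hPt n) (D n)
    rw [HasSum, Metric.tendsto_nhds] at h3
    obtain ⟨G, hG⟩ := (h3 (η / (2 * (F.card + 1))) (by positivity)).exists
    refine ⟨G, ?_⟩
    rw [dist_eq_norm, norm_sub_rev] at hG
    exact hG
  choose G hG using h2
  refine ⟨F, G, ?_⟩
  have h4 : D - ∑ n ∈ F, lp.single 2 n (∑ j ∈ G n, lp.single (P n) j (D n j)) =
      (D - ∑ n ∈ F, lp.single 2 n (D n)) +
      ∑ n ∈ F, lp.single 2 n (D n - ∑ j ∈ G n, lp.single (P n) j (D n j)) := by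
    simp only [lp.single_sub, Finset.sum_sub_distrib]
    abel
  rw [h4]
  refine (norm_add_le _ _).trans_lt ?_
  have h5 : ‖D - ∑ n ∈ F, lp.single 2 n (D n)‖ < η / 2 := by
    rw [dist_eq_norm, norm_sub_rev] at hF
    exact hF
  have h6 : ‖∑ n ∈ F, lp.single (E := fun n => EE P n) 2 n
      (D n - ∑ j ∈ G n, lp.single (P n) j (D n j))‖ ≤ η / 2 := by
    refine (norm_sum_le _ _).trans ?_
    calc ∑ n ∈ F, ‖lp.single (E := fun n => EE P n) 2 n
          (D n - ∑ j ∈ G n, lp.single (P n) j (D n j))‖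
        ≤ ∑ n ∈ F, η / (2 * (F.card + 1)) := by
          apply Finset.sum_le_sum
          intro n _
          rw [lp.norm_single (by norm_num)]
          exact (hG n).le
      _ = F.card * (η / (2 * (F.card + 1))) := by rw [Finset.sum_const, nsmul_eq_mul]
      _ ≤ η / 2 := by
          rw [mul_div_assoc', div_le_div_iff₀ (by positivity) (by norm_num)]
          nlinarith
  linarith

theorem lp_pert_lower (hPt : ∀ n, P n ≠ ⊤) (D : YY P) (w : ℕ → YY P)
    (hw : ∀ n j, Tendsto (fun i => w i n j) atTop (𝓝 0)) {ε : ℝ} (hε : 0 < ε) :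
    ∀ᶠ i in atTop, ‖w i‖ - ε < ‖D + w i‖ := by
  obtain ⟨F, G, hFG⟩ := exists_finite_approx hPt D (η := ε / 2) (by linarith)
  set D' : YY P := ∑ n ∈ F, lp.single 2 n (∑ j ∈ G n, lp.single (P n) j (D n j)) with hD'
  set R : ℕ → YY P := fun i => ∑ n ∈ F, lp.single 2 n (∑ j ∈ G n, lp.single (P n) j (w i n j))
    with hR
  have hcoord : ∀ (y : YY P) (n j : ℕ),
      (∑ n ∈ F, lp.single (E := fun n => EE P n) 2 n (∑ j ∈ G n, lp.single (P n) j (y n j)) : YY P) n j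
        = if n ∈ F ∧ j ∈ G n then y n j else 0 := by
    intro y n j
    rw [lp.coeFn_sum, Finset.sum_apply]
    simp only [lp.single_apply]
    rw [Finset.sum_pi_single]
    by_cases hn : n ∈ F
    · rw [if_pos hn, lp.coeFn_sum, Finset.sum_apply]
      simp only [lp.single_apply]
      rw [Finset.sum_pi_single]
      by_cases hj : j ∈ G n
      · simp [hn, hj]
      · simp [hj]
    · simp [hn]
  have hRn : ∀ i, ‖R i‖ ≤ ∑ n ∈ F, ∑ j ∈ G n, |w i n j| := by
    intro i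
    refine (norm_sum_le _ _).trans (Finset.sum_le_sum fun n _ => ?_)
    rw [lp.norm_single (by norm_num)]
    refine (norm_sum_le _ _).trans (Finset.sum_le_sum fun j _ => ?_)
    rw [lp.norm_single (zero_lt_one.trans_le Fact.out), Real.norm_eq_abs]
  have hR0 : Tendsto (fun i => ∑ n ∈ F, ∑ j ∈ G n, |w i n j|) atTop (𝓝 0) := by
    have : Tendsto (fun i => ∑ n ∈ F, ∑ j ∈ G n, |w i n j|) atTop
        (𝓝 (∑ n ∈ F, ∑ j ∈ G n, |(0 : ℝ)|)) :=
      tendsto_finsetSum _ fun n _ => tendsto_finsetSum _ fun j _ => (hw n j).abs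
    simpa using this
  have hev : ∀ᶠ i in atTop, ∑ n ∈ F, ∑ j ∈ G n, |w i n j| < ε / 4 :=
    hR0.eventually (gt_mem_nhds (by linarith))
  filter_upwards [hev] with i hi
  have h1 : ‖w i - R i‖ ≤ ‖D' + (w i - R i)‖ := by
    apply lp.norm_mono (by norm_num)
    intro n
    apply lp.norm_mono (zero_lt_one.trans_le Fact.out).ne'
    intro j
    have e1 : (w i - R i) n j = if n ∈ F ∧ j ∈ G n then 0 else w i n j := by
      rw [lp.coeFn_sub, Pi.sub_apply, lp.coeFn_sub, Pi.sub_apply]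
      rw [hR]
      simp only
      rw [hcoord (w i) n j]
      split_ifs <;> simp
    have e2 : (D' + (w i - R i)) n j = if n ∈ F ∧ j ∈ G n then D n j else w i n j := by
      rw [lp.coeFn_add, Pi.add_apply, lp.coeFn_add, Pi.add_apply, e1, hD', hcoord D n j]
      split_ifs <;> simp
    rw [e1, e2]
    split_ifs
    · simp
    · exact le_refl _
  have h2 : ‖R i‖ < ε / 4 := (hRn i).trans_lt hi
  have h3 : ‖w i‖ ≤ ‖w i - R i‖ + ‖R i‖ := by
    simpa using norm_add_le (w i - R i) (R i)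
  have h4 : ‖D' + (w i - R i)‖ ≤ ‖D + w i‖ + ‖D - D'‖ + ‖R i‖ := by
    have : D' + (w i - R i) = (D + w i) - (D - D') - R i := by abel
    rw [this]
    refine (norm_sub_le _ _).trans ?_
    gcongr
    exact norm_sub_le _ _
  linarith

theorem AA_lsc (N : ℕ) (D : YY P) (w : ℕ → YY P)
    (hw : ∀ ψ : StrongDual ℝ (YY P), Tendsto (fun i => ψ (w i)) atTop (𝓝 0))
    {ε : ℝ} (hε : 0 < ε) : ∀ᶠ i in atTop, AA N D - ε < AA N (D + w i) := by
  choose ψ hψ1 hψ2 using fun n => exists_dual_vector'' ℝ (D n)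
  set Ψ : ℕ → StrongDual ℝ (YY P) := fun n => (ψ n).comp (lp.evalCLM ℝ (fun n => EE P n) 2 n) with hΨ
  have hΨe : ∀ n (y : YY P), Ψ n y = ψ n (y n) := fun n y => rfl
  have h1 : Tendsto (fun i => ∑ n ∈ Finset.range N, (max (Ψ n (D + w i)) 0) ^ 2) atTop
      (𝓝 (∑ n ∈ Finset.range N, (max (Ψ n D + 0) 0) ^ 2)) := by
    apply tendsto_finsetSum
    intro n _
    apply Tendsto.pow
    apply Tendsto.max _ tendsto_const_nhds
    simp only [map_add]
    exact tendsto_const_nhds.add (hw (Ψ n))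
  have h2 : (∑ n ∈ Finset.range N, (max (Ψ n D + 0) 0) ^ 2) = AA N D := by
    unfold AA
    apply Finset.sum_congr rfl
    intro n _
    rw [add_zero, hΨe, hψ2 n]
    simp
  rw [h2] at h1
  have h3 := h1.eventually (lt_mem_nhds (show AA N D - ε < AA N D by linarith))
  filter_upwards [h3] with i hi
  refine hi.trans_le ?_
  unfold AA
  apply Finset.sum_le_sum
  intro n _
  have h4 : max (Ψ n (D + w i)) 0 ≤ ‖(D + w i) n‖ := by
    apply max_le _ (norm_nonneg _)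
    rw [hΨe]
    calc ψ n ((D + w i) n) ≤ ‖ψ n ((D + w i) n)‖ := Real.le_norm_self _
      _ ≤ ‖ψ n‖ * ‖(D + w i) n‖ := (ψ n).le_opNorm _
      _ ≤ 1 * ‖(D + w i) n‖ := by gcongr; exact hψ1 n
      _ = _ := one_mul _
  exact pow_le_pow_left₀ (le_max_right _ _) h4 2

theorem PSI_superadd (hPt : ∀ n, P n ≠ ⊤) (N : ℕ) (D : YY P) (w : ℕ → YY P) (M : ℝ)
    (hM : ∀ i, ‖w i‖ ≤ M)
    (hw : ∀ n j, Tendsto (fun i => w i n j) atTop (𝓝 0)) {ε : ℝ} (hε : 0 < ε) :
    ∀ᶠ i in atTop, PSI N D + PSI N (w i) - ε < PSI N (D + w i) := by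
  have h1 : ∀ n ∈ Finset.range N, ∀ᶠ i in atTop,
      ‖D n‖ ^ (P n).toReal + ‖w i n‖ ^ (P n).toReal - ε / (N + 1) < ‖D n + w i n‖ ^ (P n).toReal := by
    intro n _
    apply lp_superadd (hPt n) (D n) (fun i => w i n) M _ (hw n) (by positivity)
    intro i
    exact (lp.norm_apply_le_norm (by norm_num) (w i) n).trans (hM i)
  have h2 := (Finset.eventually_all (Finset.range N)).2 h1
  filter_upwards [h2] with i hi
  unfold PSI
  rcases Nat.eq_zero_or_pos N with hN | hN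
  · subst hN
    simpa using hε
  have h3 : ∑ n ∈ Finset.range N, (‖D n‖ ^ (P n).toReal + ‖w i n‖ ^ (P n).toReal - ε / (N + 1))
      < ∑ n ∈ Finset.range N, ‖D n + w i n‖ ^ (P n).toReal := by
    apply Finset.sum_lt_sum_of_nonempty (Finset.nonempty_range_iff.2 hN.ne')
    intro n hn
    exact hi n hn
  rw [Finset.sum_sub_distrib, Finset.sum_add_distrib, Finset.sum_const, Finset.card_range,
    nsmul_eq_mul] at h3
  have h4 : (N : ℝ) * (ε / (N + 1)) ≤ ε := by
    rw [mul_div_assoc', div_le_iff₀ (by positivity)]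
    nlinarith
  have h5 : ∑ n ∈ Finset.range N, ‖(D + w i) n‖ ^ (P n).toReal
      = ∑ n ∈ Finset.range N, ‖D n + w i n‖ ^ (P n).toReal := by
    apply Finset.sum_congr rfl
    intro n _
    rw [lp.coeFn_add, Pi.add_apply]
  rw [h5]
  linarith

theorem AA_lt_one (hP4 : ∀ n, (P n).toReal ≤ 4) (N : ℕ) (y : YY P)
    (h : PSI N y < 1 / ((N : ℝ) + 1) ^ 2) : AA N y < 1 := by
  have h1 : ∀ n ∈ Finset.range N, ‖y n‖ ^ 2 ≤ 1 / ((N : ℝ) + 1) := by
    intro n hn
    have h2 : ‖y n‖ ^ (P n).toReal < 1 / ((N : ℝ) + 1) ^ 2 := by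
      refine lt_of_le_of_lt ?_ h
      unfold PSI
      exact Finset.single_le_sum (f := fun n => ‖y n‖ ^ (P n).toReal)
        (fun n _ => Real.rpow_nonneg (norm_nonneg _) _) hn
    rcases eq_or_lt_of_le (norm_nonneg (y n)) with h0 | h0
    · rw [← h0, zero_pow two_ne_zero]
      positivity
    have h3 : ‖y n‖ ≤ 1 := by
      by_contra hcon
      push Not at hcon
      have : 1 ≤ ‖y n‖ ^ (P n).toReal := Real.one_le_rpow hcon.le ENNReal.toReal_nonneg
      have h4 : 1 / ((N : ℝ) + 1) ^ 2 ≤ 1 := by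
        rw [div_le_one (by positivity)]
        nlinarith [Nat.cast_nonneg (α := ℝ) N]
      linarith
    have h5 : ‖y n‖ ^ (4 : ℝ) ≤ ‖y n‖ ^ (P n).toReal :=
      Real.rpow_le_rpow_of_exponent_ge h0 h3 (hP4 n)
    have h6 : (‖y n‖ ^ 2) ^ 2 < (1 / ((N : ℝ) + 1)) ^ 2 := by
      have : ‖y n‖ ^ (4 : ℝ) = (‖y n‖ ^ 2) ^ 2 := by
        rw [← pow_mul]; norm_num
      rw [← this, one_div_pow]
      linarith
    exact (lt_of_pow_lt_pow_left₀ 2 (by positivity) h6).le
  calc AA N y ≤ ∑ n ∈ Finset.range N, 1 / ((N : ℝ) + 1) := Finset.sum_le_sum h1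
    _ = N * (1 / ((N : ℝ) + 1)) := by rw [Finset.sum_const, Finset.card_range, nsmul_eq_mul]
    _ < 1 := by
      rw [mul_one_div, div_lt_one (by positivity)]
      linarith

theorem exists_AA_close (D : YY P) {ε : ℝ} (hε : 0 < ε) : ∃ N, ‖D‖ ^ 2 - ε < AA N D := by
  have h := lp.hasSum_norm (p := 2) (by norm_num) D
  have h2 := h.tendsto_sum_nat
  simp only [ENNReal.toReal_ofNat, Real.rpow_ofNat] at h2
  have h3 := h2.eventually (lt_mem_nhds (show ‖D‖ ^ 2 - ε < ‖D‖ ^ 2 by linarith))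
  exact h3.exists

/-- unit vectors of `ℓ_4`. -/
noncomputable def ee (i : ℕ) : XX := lp.single 4 i (1 : ℝ)

theorem norm_ee (i : ℕ) : ‖ee i‖ = 1 := by
  unfold ee
  rw [lp.norm_single (by norm_num)]
  simp

theorem norm_sum_ee (U : Finset ℕ) : ‖∑ j ∈ U, ee j‖ ^ 4 = (U.card : ℝ) := by
  have := lp.norm_sum_single (p := 4) (by norm_num) (fun _ : ℕ => (1 : ℝ)) U
  simp only [ENNReal.toReal_ofNat, Real.rpow_ofNat] at this
  unfold ee
  rw [this]
  simp

theorem norm_sum_ee' (U : Finset ℕ) (M : ℕ) (h : U.card = M ^ 4) : ‖∑ j ∈ U, ee j‖ = (M : ℝ) := by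
  have h1 := norm_sum_ee U
  rw [h] at h1
  push_cast at h1
  exact (pow_left_inj₀ (norm_nonneg _) (Nat.cast_nonneg M) (by norm_num)).1 h1

theorem lemmaB (hPt : ∀ n, P n ≠ ⊤) (hP4 : ∀ n, (P n).toReal < 4) (g : XX → YY P) (L C r : ℝ)
    (hL : 0 ≤ L) (hC : 0 ≤ C) (hup : ∀ x y, ‖g x - g y‖ ≤ L * ‖x - y‖ + C)
    (hw : ∀ x, ∀ ψ : StrongDual ℝ (YY P),
      Tendsto (fun i => ψ (g (x + r • ee i) - g x)) atTop (𝓝 0))
    (N : ℕ) (b a : XX) (ε : ℝ) (hε : 0 < ε) :
    ∃ U : Finset ℕ, AA N (g b - g a) - ε <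
        AA N (g (b + r • ∑ j ∈ U, ee j) - g (a + r • ∑ j ∈ U, ee j)) ∧
      ∃ᶠ i in atTop, PSI N (g (b + r • (∑ j ∈ U, ee j) + r • ee i) - g (b + r • ∑ j ∈ U, ee j))
        < 1 / ((N : ℝ) + 1) ^ 2 := by
  by_contra hcon
  push Not at hcon
  set κ : ℝ := 1 / ((N : ℝ) + 1) ^ 2 with hκ
  have hκ0 : 0 < κ := by positivity
  have claim : ∀ k : ℕ, ∃ U : Finset ℕ, U.card = k ∧ AA N (g b - g a) - ε <
        AA N (g (b + r • ∑ j ∈ U, ee j) - g (a + r • ∑ j ∈ U, ee j)) ∧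
        k * (κ / 2) ≤ PSI N (g (b + r • ∑ j ∈ U, ee j) - g b) := by
    intro k
    induction k with
    | zero =>
      refine ⟨∅, rfl, ?_, ?_⟩
      · simp only [Finset.sum_empty, smul_zero, add_zero]
        linarith
      · simp only [Nat.cast_zero, zero_mul]
        exact Finset.sum_nonneg fun n _ => Real.rpow_nonneg (norm_nonneg _) _
    | succ k ih =>
      obtain ⟨U, hUc, hUA, hUP⟩ := ih
      set x : XX := b + r • ∑ j ∈ U, ee j with hx
      set y : XX := a + r • ∑ j ∈ U, ee j with hy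
      have e1 : ∀ᶠ i in atTop, i ∉ U := by
        rw [← Nat.cofinite_eq_atTop]
        exact U.finite_toSet.compl_mem_cofinite
      have e2 := hcon U hUA
      have e3 := AA_lsc N (g x - g y) (fun i => (g (x + r • ee i) - g x) - (g (y + r • ee i) - g y))
        (by
          intro ψ
          have := (hw x ψ).sub (hw y ψ)
          simpa using this)
        (ε := AA N (g x - g y) - (AA N (g b - g a) - ε)) (by linarith)
      have e4 := PSI_superadd hPt N (g x - g b) (fun i => g (x + r • ee i) - g x) (L * |r| + C)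
        (by
          intro i
          refine (hup _ _).trans ?_
          rw [add_sub_cancel_left, norm_smul, norm_ee, Real.norm_eq_abs, mul_one])
        (by
          intro n j
          exact hw x ((lp.evalCLM ℝ (fun _ : ℕ => ℝ) (P n) j).comp
            (lp.evalCLM ℝ (fun n => EE P n) 2 n)))
        (ε := κ / 2) (by linarith)
      obtain ⟨i, h1, h2, h3, h4⟩ := (e1.and (e2.and (e3.and e4))).exists
      have hins : ∀ z : XX, z + r • (∑ j ∈ insert i U, ee j) = z + r • (∑ j ∈ U, ee j) + r • ee i := by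
        intro z
        rw [Finset.sum_insert h1, smul_add]
        abel
      refine ⟨insert i U, by rw [Finset.card_insert_of_notMem h1, hUc], ?_, ?_⟩
      · rw [hins b, hins a, ← hx, ← hy]
        have : g x - g y + (g (x + r • ee i) - g x - (g (y + r • ee i) - g y)) =
            g (x + r • ee i) - g (y + r • ee i) := by abel
        rw [this] at h3
        linarith
      · rw [hins b, ← hx]
        have : g x - g b + (g (x + r • ee i) - g x) = g (x + r • ee i) - g b := by abel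
        rw [this] at h4
        push_cast
        linarith
  -- contradiction with growth
  set B : ℝ := L * |r| + C + 1 with hB
  have hB1 : 1 ≤ B := by
    have : 0 ≤ L * |r| := by positivity
    linarith
  have hlim : Tendsto (fun M : ℕ => ∑ n ∈ Finset.range N, B ^ (4 : ℕ) * (M : ℝ) ^ ((P n).toReal - 4))
      atTop (𝓝 (∑ n ∈ Finset.range N, B ^ (4 : ℕ) * 0)) := by
    apply tendsto_finsetSum
    intro n _
    apply Tendsto.const_mul
    have := (tendsto_rpow_neg_atTop (y := 4 - (P n).toReal) (by linarith [hP4 n])).comp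
      (tendsto_natCast_atTop_atTop (R := ℝ))
    simpa [Function.comp_def] using this
  simp only [mul_zero, Finset.sum_const_zero] at hlim
  have hev := hlim.eventually (gt_mem_nhds (show 0 < κ / 2 by linarith))
  obtain ⟨M, hM1, hM2⟩ := (hev.and (eventually_ge_atTop 1)).exists
  obtain ⟨U, hUc, _, hUP⟩ := claim (M ^ 4)
  have hMpos : (0 : ℝ) < M := by exact_mod_cast hM2
  have hM1' : (1 : ℝ) ≤ M := by exact_mod_cast hM2
  have hn : ‖g (b + r • ∑ j ∈ U, ee j) - g b‖ ≤ B * M := by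
    refine (hup _ _).trans ?_
    rw [add_sub_cancel_left, norm_smul, norm_sum_ee' U M hUc, Real.norm_eq_abs]
    have h1 : C ≤ C * M := le_mul_of_one_le_right hC hM1'
    rw [hB]
    nlinarith
  have hPSI : PSI N (g (b + r • ∑ j ∈ U, ee j) - g b) ≤
      (∑ n ∈ Finset.range N, B ^ (4 : ℕ) * (M : ℝ) ^ ((P n).toReal - 4)) * (M : ℝ) ^ 4 := by
    rw [Finset.sum_mul]
    unfold PSI
    apply Finset.sum_le_sum
    intro n _
    set z := g (b + r • ∑ j ∈ U, ee j) - g b with hz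
    calc ‖z n‖ ^ (P n).toReal ≤ (B * M) ^ (P n).toReal := by
          apply Real.rpow_le_rpow (norm_nonneg _) _ ENNReal.toReal_nonneg
          exact (lp.norm_apply_le_norm (by norm_num) z n).trans hn
      _ = B ^ (P n).toReal * (M : ℝ) ^ (P n).toReal :=
          Real.mul_rpow (by linarith) hMpos.le
      _ ≤ B ^ (4 : ℕ) * (M : ℝ) ^ (P n).toReal := by
          apply mul_le_mul_of_nonneg_right _ (by positivity)
          rw [← Real.rpow_natCast]
          exact Real.rpow_le_rpow_of_exponent_le hB1 (by exact_mod_cast (hP4 n).le)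
      _ = B ^ (4 : ℕ) * (M : ℝ) ^ ((P n).toReal - 4) * (M : ℝ) ^ 4 := by
          rw [mul_assoc]
          congr 1
          rw [← Real.rpow_natCast (M : ℝ) 4, ← Real.rpow_add hMpos]
          norm_num
  push_cast at hUP
  have : (∑ n ∈ Finset.range N, B ^ (4 : ℕ) * (M : ℝ) ^ ((P n).toReal - 4)) * (M : ℝ) ^ 4 <
      κ / 2 * (M : ℝ) ^ 4 := by
    apply mul_lt_mul_of_pos_right hM1 (by positivity)
  linarith

theorem lemmaA (hPt : ∀ n, P n ≠ ⊤) (hP4 : ∀ n, (P n).toReal < 4) (g : XX → YY P) (L C r : ℝ)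
    (hL : 0 ≤ L) (hC : 0 ≤ C) (hup : ∀ x y, ‖g x - g y‖ ≤ L * ‖x - y‖ + C)
    (hlow : ∀ x i, 3 ≤ ‖g (x + r • ee i) - g x‖)
    (hw : ∀ x, ∀ ψ : StrongDual ℝ (YY P),
      Tendsto (fun i => ψ (g (x + r • ee i) - g x)) atTop (𝓝 0))
    (b a : XX) (S : Finset ℕ) :
    ∃ (b' a' : XX) (i : ℕ), i ∉ S ∧ b' - a' = (b - a) + r • ee i ∧
      ‖g b - g a‖ ^ 2 + 1 / 2 ≤ ‖g b' - g a'‖ ^ 2 := by
  obtain ⟨N, hN⟩ := exists_AA_close (g b - g a) (ε := 1 / 8) (by norm_num)
  obtain ⟨U, hU1, hU2⟩ := lemmaB hPt hP4 g L C r hL hC hup hw N b a (1 / 8) (by norm_num)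
  set x : XX := b + r • ∑ j ∈ U, ee j with hx
  set y : XX := a + r • ∑ j ∈ U, ee j with hy
  have e1 : ∀ᶠ i in atTop, i ∉ S := by
    rw [← Nat.cofinite_eq_atTop]
    exact S.finite_toSet.compl_mem_cofinite
  have e2 := AA_lsc N (g x - g y) (fun i => g (x + r • ee i) - g x) (hw x) (ε := 1 / 8) (by norm_num)
  have e3 := lp_pert_lower hPt (TL N (g x - g y)) (fun i => TL N (g (x + r • ee i) - g x))
    (by
      intro n j
      by_cases hn : n < N
      · simp only [TL_apply, if_pos hn]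
        simp
      · simp only [TL_apply, if_neg hn]
        exact hw x ((lp.evalCLM ℝ (fun _ : ℕ => ℝ) (P n) j).comp
            (lp.evalCLM ℝ (fun n => EE P n) 2 n)))
    (ε := 1) one_pos
  obtain ⟨i, h0, h1, h2, h3⟩ := (hU2.and_eventually (e1.and (e2.and e3))).exists
  refine ⟨x + r • ee i, y, i, h1, ?_, ?_⟩
  · rw [hx, hy]; abel
  set w := g (x + r • ee i) - g x with hwdef
  set D := g x - g y with hD
  have hDw : g (x + r • ee i) - g y = D + w := by rw [hD, hwdef]; abel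
  rw [hDw]
  have h4 := AA_lt_one (fun n => (hP4 n).le) N w h0
  have h5 := norm_TL_sq N w
  have h6 : 3 ≤ ‖w‖ := hlow x i
  have h7 : 2 ≤ ‖TL N w‖ := by
    have : (2 : ℝ) ^ 2 ≤ ‖TL N w‖ ^ 2 := by nlinarith
    exact (pow_le_pow_iff_left₀ (by norm_num) (norm_nonneg _) two_ne_zero).1 this
  have h8 : 1 ≤ ‖TL N (D + w)‖ := by
    rw [TL_add]
    linarith
  have h9 := norm_TL_sq N (D + w)
  have h10 : 1 ≤ ‖TL N (D + w)‖ ^ 2 := by nlinarith
  linarith

/-- No coarse Lipschitz map with these lower bounds is weakly sequentially continuous. -/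
theorem no_wsc (hPt : ∀ n, P n ≠ ⊤) (hP4 : ∀ n, (P n).toReal < 4) (g : XX → YY P) (L C r : ℝ)
    (hL : 0 ≤ L) (hC : 0 ≤ C) (hup : ∀ x y, ‖g x - g y‖ ≤ L * ‖x - y‖ + C)
    (hlow : ∀ x i, 3 ≤ ‖g (x + r • ee i) - g x‖)
    (hw : ∀ x, ∀ ψ : StrongDual ℝ (YY P),
      Tendsto (fun i => ψ (g (x + r • ee i) - g x)) atTop (𝓝 0)) : False := by
  have claim : ∀ m : ℕ, ∃ (b a : XX) (S : Finset ℕ), S.card = m ∧ b - a = r • ∑ j ∈ S, ee j ∧
      (m : ℝ) / 2 ≤ ‖g b - g a‖ ^ 2 := by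
    intro m
    induction m with
    | zero => exact ⟨0, 0, ∅, rfl, by simp, by simp⟩
    | succ m ih =>
      obtain ⟨b, a, S, hS, hba, hm⟩ := ih
      obtain ⟨b', a', i, hi, h1, h2⟩ := lemmaA hPt hP4 g L C r hL hC hup hlow hw b a S
      refine ⟨b', a', insert i S, by rw [Finset.card_insert_of_notMem hi, hS], ?_, ?_⟩
      · rw [h1, hba, Finset.sum_insert hi, smul_add]; abel
      · push_cast
        linarith
  set B : ℝ := L * |r| + C + 1 with hB
  have hB1 : 1 ≤ B := by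
    have : 0 ≤ L * |r| := by positivity
    linarith
  obtain ⟨M, hM⟩ := exists_nat_gt (2 * B ^ 2)
  obtain ⟨b, a, S, hS, hba, hm⟩ := claim (M ^ 4)
  have hM1 : (1 : ℝ) ≤ M := by nlinarith
  have hn : ‖g b - g a‖ ≤ B * M := by
    refine (hup _ _).trans ?_
    rw [hba, norm_smul, norm_sum_ee' S M hS, Real.norm_eq_abs]
    have h1 : C ≤ C * M := le_mul_of_one_le_right hC hM1
    rw [hB]
    nlinarith
  have h2 : ‖g b - g a‖ ^ 2 ≤ (B * M) ^ 2 := pow_le_pow_left₀ (norm_nonneg _) hn 2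
  push_cast at hm
  have h3 : (M : ℝ) ^ 4 / 2 ≤ B ^ 2 * M ^ 2 := by
    calc (M : ℝ) ^ 4 / 2 ≤ _ := hm
      _ ≤ _ := h2
      _ = _ := by ring
  have h4 : (M : ℝ) ^ 2 * ((M : ℝ) ^ 2 - 2 * B ^ 2) ≤ 0 := by nlinarith
  have h5 : 0 < (M : ℝ) ^ 2 - 2 * B ^ 2 := by nlinarith
  have h6 : 0 < (M : ℝ) ^ 2 * ((M : ℝ) ^ 2 - 2 * B ^ 2) := by positivity
  linarith

end Main

end Pool.Agent.Helper58
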