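import Mathlib
import Pool.Agent.Helper58.Mazur
import Pool.Agent.Helper58.NoWsc

set_option autoImplicit false
open Filter Topology
open scoped ENNReal lp

namespace Pool.Agent.Helper58

/-- Mazur exponents. -/
noncomputable def sn (n : ℕ) : ℝ := ((n : ℝ) + 2) / (n + 1)

/-- exponents of the components. -/
noncomputable def PP (n : ℕ) : ℝ≥0∞ := ENNReal.ofReal (4 * ((n : ℝ) + 1) / (n + 2))

theorem PP_toReal (n : ℕ) : (PP n).toReal = 4 * ((n : ℝ) + 1) / (n + 2) := by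
  unfold PP
  rw [ENNReal.toReal_ofReal (by positivity)]

theorem PP_top (n : ℕ) : PP n ≠ ⊤ := ENNReal.ofReal_ne_top

instance PP_fact (n : ℕ) : Fact (1 ≤ PP n) := ⟨by
  unfold PP
  rw [ENNReal.one_le_ofReal, le_div_iff₀ (by positivity)]
  have : (0 : ℝ) ≤ n := Nat.cast_nonneg n
  linarith⟩

theorem PP_lt (n : ℕ) : (PP n).toReal < 4 := by
  rw [PP_toReal, div_lt_iff₀ (by positivity)]
  linarith

theorem PP_ge (n : ℕ) : 2 ≤ (PP n).toReal := by
  rw [PP_toReal, le_div_iff₀ (by positivity)]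
  have : (0 : ℝ) ≤ n := Nat.cast_nonneg n
  linarith

theorem sn_mul (n : ℕ) : sn n * (PP n).toReal = 4 := by
  rw [PP_toReal]
  unfold sn
  field_simp

theorem sn_gt (n : ℕ) : 1 < sn n := by
  unfold sn
  rw [lt_div_iff₀ (by positivity)]
  linarith

theorem sn_le (n : ℕ) : sn n ≤ 2 := by
  unfold sn
  rw [div_le_iff₀ (by positivity)]
  have : (0 : ℝ) ≤ n := Nat.cast_nonneg n
  linarith

theorem sn_sub_one (n : ℕ) : sn n - 1 = 1 / ((n : ℝ) + 1) := by
  unfold sn
  field_simp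
  ring

/-- Mazur map into the `n`-th component. -/
noncomputable def mzn (n : ℕ) (x : XX) : EE PP n := mazur (sn_gt n).le (sn_mul n) x

theorem pow_root (n : ℕ) : ((2 : ℝ) ^ (n + 1)) ^ (sn n - 1) = 2 := by
  rw [sn_sub_one, ← Real.rpow_natCast 2 (n + 1), ← Real.rpow_mul (by norm_num)]
  push_cast
  rw [mul_one_div_cancel (by positivity), Real.rpow_one]

theorem pow_root' (n : ℕ) : ((2 : ℝ) * 2 ^ (n + 1)) ^ (sn n - 1) ≤ 4 := by
  rw [Real.mul_rpow (by norm_num) (by positivity), pow_root]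
  have h : (2 : ℝ) ^ (sn n - 1) ≤ 2 := by
    calc (2 : ℝ) ^ (sn n - 1) ≤ 2 ^ (1 : ℝ) :=
          Real.rpow_le_rpow_of_exponent_le (by norm_num) (by linarith [sn_le n])
      _ = 2 := Real.rpow_one 2
  linarith

theorem mzn_norm_le (n : ℕ) (x : XX) (hx : ‖x‖ ≤ 2 ^ (n + 1)) : ‖mzn n x‖ ≤ 2 * 2 ^ (n + 1) := by
  unfold mzn
  rw [mazur_norm]
  have h1 : ‖x‖ ^ (sn n) ≤ ((2 : ℝ) ^ (n + 1)) ^ (sn n) :=
    Real.rpow_le_rpow (norm_nonneg _) hx (by linarith [sn_gt n])
  refine h1.trans ?_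
  have h2 : ((2 : ℝ) ^ (n + 1)) ^ (sn n) = ((2 : ℝ) ^ (n + 1)) ^ (sn n - 1) * 2 ^ (n + 1) := by
    rw [Real.rpow_sub_one (by positivity), div_mul_cancel₀ _ (by positivity)]
  rw [h2, pow_root]

theorem mzn_upper (n : ℕ) (x y : XX) (hx : ‖x‖ ≤ 2 ^ (n + 1)) (hy : ‖y‖ ≤ 2 ^ (n + 1)) :
    ‖mzn n x - mzn n y‖ ≤ 8 * ‖x - y‖ := by
  unfold mzn
  refine (mazur_upper (sn_gt n) (sn_le n) (sn_mul n) x y).trans ?_
  have h1 : (‖x‖ + ‖y‖) ^ (sn n - 1) ≤ 4 := by
    refine le_trans ?_ (pow_root' n)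
    apply Real.rpow_le_rpow (by positivity) (by linarith) (by linarith [sn_gt n])
  have h2 : 0 ≤ ‖x - y‖ := norm_nonneg _
  nlinarith

theorem mzn_lower (n : ℕ) (x y : XX) (h : 1 ≤ ‖x - y‖) :
    ‖x - y‖ ≤ 2 * ‖mzn n x - mzn n y‖ := by
  refine le_trans ?_ (mazur_lower (sn_gt n).le (sn_le n) (sn_mul n) x y)
  calc ‖x - y‖ = ‖x - y‖ ^ (1 : ℝ) := (Real.rpow_one _).symm
    _ ≤ ‖x - y‖ ^ (sn n) := Real.rpow_le_rpow_of_exponent_le h (sn_gt n).le

/-- hat functions -/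
noncomputable def hat (n : ℕ) (t : ℝ) : ℝ := max 0 (min (2 * t / 2 ^ n - 1) (2 - t / 2 ^ n))

theorem hat_nonneg (n : ℕ) (t : ℝ) : 0 ≤ hat n t := le_max_left _ _

theorem hat_le_one (n : ℕ) (t : ℝ) : hat n t ≤ 1 := by
  unfold hat
  apply max_le (by norm_num)
  rw [min_le_iff]
  rcases le_total (t / 2 ^ n) 1 with h | h
  · left
    rw [mul_div_assoc]
    linarith
  · right
    linarith

theorem hat_ne_zero {n : ℕ} {t : ℝ} (h : hat n t ≠ 0) : (2 : ℝ) ^ n < 2 * t ∧ t < 2 * 2 ^ n := by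
  have hpos : 0 < hat n t := lt_of_le_of_ne (hat_nonneg n t) (Ne.symm h)
  unfold hat at hpos
  rw [lt_max_iff] at hpos
  rcases hpos with h0 | h0
  · exact absurd h0 (lt_irrefl _)
  · rw [lt_min_iff] at h0
    have h2 : (0 : ℝ) < 2 ^ n := by positivity
    constructor
    · have := h0.1
      rw [sub_pos, lt_div_iff₀ h2] at this
      linarith
    · have := h0.2
      rw [sub_pos, div_lt_iff₀ h2] at this
      exact this

theorem hat_lip (n : ℕ) (a b : ℝ) : |hat n a - hat n b| ≤ 2 / 2 ^ n * |a - b| := by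
  have h2 : (0 : ℝ) < 2 ^ n := by positivity
  unfold hat
  refine (abs_max_sub_max_le_max _ _ _ _).trans ?_
  apply max_le
  · simp only [sub_self, abs_zero]
    positivity
  · refine (abs_min_sub_min_le_max _ _ _ _).trans ?_
    apply max_le
    · have : 2 * a / 2 ^ n - 1 - (2 * b / 2 ^ n - 1) = 2 / 2 ^ n * (a - b) := by ring
      rw [this, abs_mul, abs_of_pos (by positivity : (0 : ℝ) < 2 / 2 ^ n)]
    · have : 2 - a / 2 ^ n - (2 - b / 2 ^ n) = - (1 / 2 ^ n * (a - b)) := by ring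
      rw [this, abs_neg, abs_mul, abs_of_pos (by positivity : (0 : ℝ) < 1 / 2 ^ n)]
      apply mul_le_mul_of_nonneg_right _ (abs_nonneg _)
      gcongr
      norm_num

theorem hat_support (t : ℝ) : ∃ k : ℕ, ∀ n, hat n t ≠ 0 → n = k ∨ n = k + 1 := by
  classical
  by_cases h : ∃ n, hat n t ≠ 0
  · refine ⟨Nat.find h, fun n hn => ?_⟩
    have h1 := Nat.find_min' h hn
    have h2 := hat_ne_zero hn
    have h3 := hat_ne_zero (Nat.find_spec h)
    have h4 : (2 : ℝ) ^ n < 2 ^ (Nat.find h + 2) := by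
      rw [pow_add]
      linarith [h2.1, h3.2]
    have h5 := (pow_lt_pow_iff_right₀ (by norm_num : (1 : ℝ) < 2)).1 h4
    omega
  · push Not at h
    exact ⟨0, fun n hn => absurd (h n) hn⟩

theorem hat_large (t : ℝ) (ht : 2 ≤ t) : ∃ n : ℕ, n ≠ 0 ∧ t ≤ 2 ^ (n + 1) ∧ 1 / 2 ≤ hat n t := by
  obtain ⟨n, hn1, hn2⟩ := exists_nat_pow_near (by linarith : (1 : ℝ) ≤ t) (by norm_num : (1 : ℝ) < 2)
  have h2 : (0 : ℝ) < 2 ^ n := by positivity
  have hn0 : n ≠ 0 := by
    rintro rfl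
    norm_num at hn2
    linarith
  have e1 : hat n t = 2 - t / 2 ^ n := by
    unfold hat
    have h3 : 1 ≤ t / 2 ^ n := by rw [le_div_iff₀ h2]; linarith
    have h4 : t / 2 ^ n < 2 := by rw [div_lt_iff₀ h2]; rw [pow_succ] at hn2; linarith
    rw [min_eq_right, max_eq_right]
    · linarith
    · rw [mul_div_assoc]; linarith
  have e2 : hat (n + 1) t = t / 2 ^ n - 1 := by
    unfold hat
    have h3 : 1 ≤ t / 2 ^ n := by rw [le_div_iff₀ h2]; linarith
    have h4 : t / 2 ^ n < 2 := by rw [div_lt_iff₀ h2]; rw [pow_succ] at hn2; linarith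
    have h5 : 2 * t / 2 ^ (n + 1) = t / 2 ^ n := by
      rw [pow_succ]; field_simp
    have h6 : t / 2 ^ (n + 1) = t / 2 ^ n / 2 := by
      rw [pow_succ]; field_simp
    rw [h5, h6, min_eq_left, max_eq_right]
    · linarith
    · linarith
  rcases le_total (1 / 2) (hat n t) with h | h
  · exact ⟨n, hn0, hn2.le, h⟩
  · refine ⟨n + 1, by omega, ?_, ?_⟩
    · refine hn2.le.trans ?_
      apply pow_le_pow_right₀ (by norm_num)
      omega
    · rw [e2]
      rw [e1] at h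
      linarith

/-- component maps -/
noncomputable def comp (n : ℕ) (x : XX) : EE PP n := hat n ‖x‖ • mzn n x

theorem comp_lip (n : ℕ) (x y : XX) : ‖comp n x - comp n y‖ ≤ 16 * ‖x - y‖ := by
  have h2 : (0 : ℝ) < 2 ^ n := by positivity
  have hd : 0 ≤ ‖x - y‖ := norm_nonneg _
  have hn : |‖x‖ - ‖y‖| ≤ ‖x - y‖ := abs_norm_sub_norm_le x y
  have key : ∀ z : XX, ‖z‖ ≤ 2 ^ (n + 1) → |hat n ‖x‖ - hat n ‖y‖| * ‖mzn n z‖ ≤ 8 * ‖x - y‖ := by
    intro z hz
    calc |hat n ‖x‖ - hat n ‖y‖| * ‖mzn n z‖ ≤ (2 / 2 ^ n * ‖x - y‖) * (2 * 2 ^ (n + 1)) := by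
          apply mul_le_mul _ (mzn_norm_le n z hz) (norm_nonneg _) (by positivity)
          refine (hat_lip n _ _).trans ?_
          gcongr
      _ = 8 * ‖x - y‖ := by
          rw [pow_succ]
          field_simp
          ring
  have hzero : ∀ z : XX, ¬ ‖z‖ ≤ 2 ^ (n + 1) → hat n ‖z‖ = 0 := by
    intro z hz
    by_contra hcon
    apply hz
    have := (hat_ne_zero hcon).2
    rw [pow_succ]
    linarith
  unfold comp
  by_cases hx : ‖x‖ ≤ 2 ^ (n + 1)
  · by_cases hy : ‖y‖ ≤ 2 ^ (n + 1)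
    · have e : hat n ‖x‖ • mzn n x - hat n ‖y‖ • mzn n y =
          hat n ‖x‖ • (mzn n x - mzn n y) + (hat n ‖x‖ - hat n ‖y‖) • mzn n y := by
        rw [smul_sub, sub_smul]; abel
      rw [e]
      refine (norm_add_le _ _).trans ?_
      rw [norm_smul, norm_smul, Real.norm_eq_abs, Real.norm_eq_abs, abs_of_nonneg (hat_nonneg _ _)]
      have h3 := key y hy
      have h4 := mzn_upper n x y hx hy
      have h5 : hat n ‖x‖ * ‖mzn n x - mzn n y‖ ≤ 1 * (8 * ‖x - y‖) :=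
        mul_le_mul (hat_le_one _ _) h4 (norm_nonneg _) (by norm_num)
      linarith
    · have h3 := key x hx
      rw [hzero y hy] at h3 ⊢
      rw [zero_smul, sub_zero, norm_smul, Real.norm_eq_abs]
      rw [sub_zero] at h3
      linarith
  · by_cases hy : ‖y‖ ≤ 2 ^ (n + 1)
    · have h3 := key y hy
      rw [hzero x hx] at h3 ⊢
      rw [zero_smul, zero_sub, norm_neg, norm_smul, Real.norm_eq_abs]
      rw [zero_sub, abs_neg] at h3
      linarith
    · rw [hzero x hx, hzero y hy, zero_smul, zero_smul, sub_zero, norm_zero]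
      positivity

/-- the embedding, as a function -/
noncomputable def ffun (x : XX) (n : ℕ) : EE PP n :=
  if n = 0 then lp.single (PP n) 0 ‖x‖ else comp n x

theorem ffun_fin (x : XX) : Set.Finite {n | ffun x n ≠ 0} := by
  obtain ⟨k, hk⟩ := hat_support ‖x‖
  refine (Set.toFinite ({0, k, k + 1} : Set ℕ)).subset ?_
  intro n hn
  simp only [Set.mem_ofPred_eq] at hn
  by_cases h0 : n = 0
  · simp [h0]
  · have : hat n ‖x‖ ≠ 0 := by
      intro hcon
      apply hn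
      unfold ffun comp
      rw [if_neg h0, hcon, zero_smul]
    rcases hk n this with h | h <;> simp [h]

/-- the coarse Lipschitz embedding -/
noncomputable def emb (x : XX) : YY PP :=
  ⟨ffun x, (memℓp_zero (ffun_fin x)).of_exponent_ge zero_le⟩

theorem emb_apply (x : XX) (n : ℕ) : emb x n = ffun x n := rfl

theorem norm_le_sum_of_support (z : YY PP) (S : Finset ℕ) (h : ∀ n, n ∉ S → z n = 0) :
    ‖z‖ ≤ ∑ n ∈ S, ‖z n‖ := by
  have e : z = ∑ n ∈ S, lp.single 2 n (z n) := by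
    apply lp.ext
    funext n
    rw [lp.coeFn_sum, Finset.sum_apply]
    simp only [lp.single_apply]
    rw [Finset.sum_pi_single]
    split_ifs with hn
    · rfl
    · exact h n hn
  conv_lhs => rw [e]
  refine (norm_sum_le _ _).trans (le_of_eq ?_)
  apply Finset.sum_congr rfl
  intro n _
  rw [lp.norm_single (by norm_num)]

theorem ffun_lip (x y : XX) (n : ℕ) : ‖ffun x n - ffun y n‖ ≤ 16 * ‖x - y‖ := by
  unfold ffun
  split_ifs with h
  · rw [← lp.single_sub, lp.norm_single (zero_lt_one.trans_le Fact.out), Real.norm_eq_abs]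
    have := abs_norm_sub_norm_le x y
    have h2 : 0 ≤ ‖x - y‖ := norm_nonneg _
    linarith
  · exact comp_lip n x y

theorem emb_upper (x y : XX) : ‖emb x - emb y‖ ≤ 80 * ‖x - y‖ := by
  obtain ⟨k, hk⟩ := hat_support ‖x‖
  obtain ⟨l, hl⟩ := hat_support ‖y‖
  have hd : 0 ≤ ‖x - y‖ := norm_nonneg _
  have h1 := norm_le_sum_of_support (emb x - emb y) ({0, k, k + 1, l, l + 1} : Finset ℕ) (by
    intro n hn
    simp only [Finset.mem_insert, Finset.mem_singleton, not_or] at hn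
    obtain ⟨h0, h1, h2, h3, h4⟩ := hn
    have hx : hat n ‖x‖ = 0 := by
      by_contra hcon
      rcases hk n hcon with h | h
      · exact h1 h
      · exact h2 h
    have hy : hat n ‖y‖ = 0 := by
      by_contra hcon
      rcases hl n hcon with h | h
      · exact h3 h
      · exact h4 h
    rw [lp.coeFn_sub, Pi.sub_apply, emb_apply, emb_apply]
    unfold ffun comp
    rw [if_neg h0, if_neg h0, hx, hy, zero_smul, zero_smul, sub_zero])
  refine h1.trans ?_
  calc ∑ n ∈ ({0, k, k + 1, l, l + 1} : Finset ℕ), ‖(emb x - emb y) n‖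
      ≤ ∑ n ∈ ({0, k, k + 1, l, l + 1} : Finset ℕ), 16 * ‖x - y‖ := by
        apply Finset.sum_le_sum
        intro n _
        rw [lp.coeFn_sub, Pi.sub_apply, emb_apply, emb_apply]
        exact ffun_lip x y n
    _ = (Finset.card ({0, k, k + 1, l, l + 1} : Finset ℕ) : ℝ) * (16 * ‖x - y‖) := by
        rw [Finset.sum_const, nsmul_eq_mul]
    _ ≤ 5 * (16 * ‖x - y‖) := by
        have : Finset.card ({0, k, k + 1, l, l + 1} : Finset ℕ) ≤ 5 := Finset.card_le_five
        have h' : (Finset.card ({0, k, k + 1, l, l + 1} : Finset ℕ) : ℝ) ≤ 5 := by exact_mod_cast this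
        gcongr
    _ = 80 * ‖x - y‖ := by ring

theorem emb_lower_aux (x y : XX) (hxy : ‖x‖ ≤ ‖y‖) (h2 : 2 ≤ ‖y‖) (hd : 1 ≤ ‖x - y‖) :
    ‖x - y‖ ≤ 36 * ‖emb x - emb y‖ := by
  obtain ⟨n, hn0, hn1, hn2⟩ := hat_large ‖y‖ h2
  have hp : (0 : ℝ) < 2 ^ n := by positivity
  have c0 : ‖y‖ - ‖x‖ ≤ ‖emb x - emb y‖ := by
    have h := lp.norm_apply_le_norm (p := 2) (by norm_num) (emb x - emb y) 0
    rw [lp.coeFn_sub, Pi.sub_apply, emb_apply, emb_apply] at h
    unfold ffun at h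
    rw [if_pos rfl, if_pos rfl, ← lp.single_sub,
      lp.norm_single (zero_lt_one.trans_le Fact.out), Real.norm_eq_abs, abs_sub_comm,
      abs_of_nonneg (by linarith)] at h
    exact h
  have c1 : ‖comp n x - comp n y‖ ≤ ‖emb x - emb y‖ := by
    have h := lp.norm_apply_le_norm (p := 2) (by norm_num) (emb x - emb y) n
    rw [lp.coeFn_sub, Pi.sub_apply, emb_apply, emb_apply] at h
    unfold ffun at h
    rw [if_neg hn0, if_neg hn0] at h
    exact h
  have e : hat n ‖y‖ • (mzn n x - mzn n y) =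
      (comp n x - comp n y) - (hat n ‖x‖ - hat n ‖y‖) • mzn n x := by
    unfold comp
    rw [smul_sub, sub_smul]; abel
  have h3 : ‖hat n ‖y‖ • (mzn n x - mzn n y)‖ ≤
      ‖comp n x - comp n y‖ + ‖(hat n ‖x‖ - hat n ‖y‖) • mzn n x‖ := by
    rw [e]; exact norm_sub_le _ _
  rw [norm_smul, norm_smul, Real.norm_eq_abs, Real.norm_eq_abs, abs_of_nonneg (hat_nonneg _ _)] at h3
  have h4 : |hat n ‖x‖ - hat n ‖y‖| * ‖mzn n x‖ ≤ 8 * (‖y‖ - ‖x‖) := by
    calc |hat n ‖x‖ - hat n ‖y‖| * ‖mzn n x‖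
        ≤ (2 / 2 ^ n * (‖y‖ - ‖x‖)) * (2 * 2 ^ (n + 1)) := by
          apply mul_le_mul _ (mzn_norm_le n x (hxy.trans hn1)) (norm_nonneg _)
          · apply mul_nonneg (by positivity)
            linarith
          · refine (hat_lip n _ _).trans ?_
            rw [abs_sub_comm, abs_of_nonneg (by linarith)]
      _ = 8 * (‖y‖ - ‖x‖) := by
          rw [pow_succ]
          field_simp
          ring
  have h5 := mzn_lower n x y hd
  have h6 : 1 / 2 * ‖mzn n x - mzn n y‖ ≤ hat n ‖y‖ * ‖mzn n x - mzn n y‖ := by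
    gcongr
  linarith

theorem emb_lower (x y : XX) : 1 / 36 * ‖x - y‖ - 1 ≤ ‖emb x - emb y‖ := by
  by_cases hd : 1 ≤ ‖x - y‖
  · rcases le_total ‖x‖ ‖y‖ with h | h
    · by_cases h2 : 2 ≤ ‖y‖
      · have := emb_lower_aux x y h h2 hd
        linarith
      · have h3 : ‖x - y‖ ≤ ‖x‖ + ‖y‖ := norm_sub_le _ _
        have h4 : 0 ≤ ‖emb x - emb y‖ := norm_nonneg _
        push Not at h2
        linarith
    · by_cases h2 : 2 ≤ ‖x‖
      · have := emb_lower_aux y x h h2 (by rwa [norm_sub_rev])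
        rw [norm_sub_rev y x, norm_sub_rev (emb y)] at this
        linarith
      · have h3 : ‖x - y‖ ≤ ‖x‖ + ‖y‖ := norm_sub_le _ _
        have h4 : 0 ≤ ‖emb x - emb y‖ := norm_nonneg _
        push Not at h2
        linarith
  · have h4 : 0 ≤ ‖emb x - emb y‖ := norm_nonneg _
    push Not at hd
    linarith

end Pool.Agent.Helper58
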