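import Mathlib

set_option autoImplicit false
open Filter Topology
open scoped ENNReal lp

namespace Pool.Agent.Helper58

section Coeff

variable {ι : Type*} {E : ι → Type*} [∀ i, NormedAddCommGroup (E i)] [∀ i, NormedSpace ℝ (E i)]

/-- The coefficient functionals of a continuous functional on an `lp`-sum. -/
noncomputable def coeff [DecidableEq ι] {p : ℝ≥0∞} [Fact (1 ≤ p)] (Λ : StrongDual ℝ (lp E p)) (i : ι) :
    StrongDual ℝ (E i) :=
  Λ.comp (lp.singleContinuousLinearMap ℝ E p i)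

theorem coeff_apply [DecidableEq ι] {p : ℝ≥0∞} [Fact (1 ≤ p)] (Λ : StrongDual ℝ (lp E p)) (i : ι)
    (y : E i) : coeff Λ i y = Λ (lp.single p i y) := rfl

theorem exists_almost_norming {F : Type*} [NormedAddCommGroup F] [NormedSpace ℝ F]
    (f : StrongDual ℝ F) : ∃ y : F, ‖y‖ ≤ 1 ∧ ‖f‖ / 2 ≤ f y := by
  by_cases hf : ‖f‖ = 0
  · exact ⟨0, by simp, by simp [hf]⟩
  · have hpos : 0 < ‖f‖ := lt_of_le_of_ne (norm_nonneg _) (Ne.symm hf)
    obtain ⟨y, hy1, hy2⟩ := f.exists_lt_apply_of_lt_opNorm (r := ‖f‖ / 2) (by linarith)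
    rw [Real.norm_eq_abs] at hy2
    rcases abs_cases (f y) with ⟨h, _⟩ | ⟨h, _⟩
    · exact ⟨y, hy1.le, by rw [← h]; exact hy2.le⟩
    · exact ⟨-y, by simpa using hy1.le, by rw [map_neg, ← h]; exact hy2.le⟩

theorem memlp_coeff [DecidableEq ι] {p p' : ℝ≥0∞} [Fact (1 ≤ p)]
    (hpp : p.toReal.HolderConjugate p'.toReal) (Λ : StrongDual ℝ (lp E p)) :
    Memℓp (coeff Λ) p' := by
  have hp0 : 0 < p.toReal := hpp.pos
  have hp'0 : 0 < p'.toReal := hpp.symm.pos
  apply memℓp_gen' (C := (2 * ‖Λ‖) ^ p'.toReal)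
  intro F
  choose y hy1 hy2 using fun i => exists_almost_norming (coeff Λ i)
  set t : ι → ℝ := fun i => ‖coeff Λ i‖ with ht
  have ht0 : ∀ i, 0 ≤ t i := fun i => norm_nonneg _
  set S : ℝ := ∑ i ∈ F, t i ^ p'.toReal with hS
  have hS0 : 0 ≤ S := Finset.sum_nonneg fun i _ => Real.rpow_nonneg (ht0 i) _
  set a : ι → ℝ := fun i => t i ^ (p'.toReal - 1) with ha
  have ha0 : ∀ i, 0 ≤ a i := fun i => Real.rpow_nonneg (ht0 i) _
  set z : lp E p := ∑ i ∈ F, lp.single p i (a i • y i) with hz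
  have hznorm : ‖z‖ ^ p.toReal ≤ S := by
    rw [hz, lp.norm_sum_single hp0]
    apply Finset.sum_le_sum
    intro i _
    rw [norm_smul, Real.norm_eq_abs, abs_of_nonneg (ha0 i)]
    calc (a i * ‖y i‖) ^ p.toReal ≤ (a i) ^ p.toReal := by
          apply Real.rpow_le_rpow (mul_nonneg (ha0 i) (norm_nonneg _)) _ hp0.le
          exact mul_le_of_le_one_right (ha0 i) (hy1 i)
      _ = t i ^ p'.toReal := by
          rw [ha, ← Real.rpow_mul (ht0 i)]
          congr 1
          have := hpp.symm.sub_one_mul_conj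
          linarith [this]
  have hΛz : S / 2 ≤ Λ z := by
    rw [hz, map_sum, hS, Finset.sum_div]
    apply Finset.sum_le_sum
    intro i _
    rw [lp.single_smul, map_smul, ← coeff_apply, smul_eq_mul]
    have h1 : t i ^ p'.toReal = a i * t i := by
      rcases eq_or_lt_of_le (ht0 i) with h | h
      · rw [← h]; simp [Real.zero_rpow hp'0.ne']
      · rw [ha]
        simp only
        rw [Real.rpow_sub_one h.ne', div_mul_cancel₀ _ h.ne']
    rw [h1, mul_div_assoc]
    exact mul_le_mul_of_nonneg_left (hy2 i) (ha0 i)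
  have hz' : ‖z‖ ≤ S ^ (1 / p.toReal) := by
    have := Real.rpow_le_rpow (by positivity) hznorm (by positivity : 0 ≤ 1 / p.toReal)
    rwa [← Real.rpow_mul (norm_nonneg _), mul_one_div_cancel hp0.ne', Real.rpow_one] at this
  have h2 : S / 2 ≤ ‖Λ‖ * S ^ (1 / p.toReal) := by
    calc S / 2 ≤ Λ z := hΛz
      _ ≤ ‖Λ z‖ := Real.le_norm_self _
      _ ≤ ‖Λ‖ * ‖z‖ := Λ.le_opNorm z
      _ ≤ ‖Λ‖ * S ^ (1 / p.toReal) := by gcongr
  rcases eq_or_lt_of_le hS0 with h | h
  · rw [← h]; positivity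
  · have h3 : S ^ (1 / p'.toReal) ≤ 2 * ‖Λ‖ := by
      have h4 : S = S ^ (1 / p.toReal) * S ^ (1 / p'.toReal) := by
        rw [← Real.rpow_add h]
        have := hpp.inv_add_inv_eq_one
        rw [one_div, one_div, this, Real.rpow_one]
      have h5 : 0 < S ^ (1 / p.toReal) := Real.rpow_pos_of_pos h _
      rw [h4] at h2
      have h6 : S ^ (1 / p.toReal) * S ^ (1 / p'.toReal) ≤ S ^ (1 / p.toReal) * (2 * ‖Λ‖) := by
        have : S ^ (1 / p.toReal) = (S ^ (1 / p.toReal) * S ^ (1 / p'.toReal)) ^ (1 / p.toReal) := by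
          rw [← h4]
        rw [← this] at h2
        linarith
      exact le_of_mul_le_mul_left h6 h5
    have := Real.rpow_le_rpow (by positivity) h3 hp'0.le
    rwa [← Real.rpow_mul h.le, one_div_mul_cancel hp'0.ne', Real.rpow_one] at this

end Coeff

section Reflexive

variable {ι : Type*} {E : ι → Type*} [∀ i, NormedAddCommGroup (E i)] [∀ i, NormedSpace ℝ (E i)]

/-- An `lp`-sum (`1 < p < ∞`) of reflexive spaces is reflexive. -/
theorem lp_reflexive {p p' : ℝ≥0∞} [Fact (1 ≤ p)] [Fact (1 ≤ p')] [p.HolderConjugate p']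
    (hp : p ≠ ⊤) (hp' : p' ≠ ⊤)
    (hE : ∀ i, Function.Surjective (NormedSpace.inclusionInDoubleDual ℝ (E i))) :
    Function.Surjective (NormedSpace.inclusionInDoubleDual ℝ (lp E p)) := by
  classical
  have hp0 : (0 : ℝ) < p.toReal := ENNReal.toReal_pos (zero_lt_one.trans_le Fact.out).ne' hp
  have hp'0 : (0 : ℝ) < p'.toReal := ENNReal.toReal_pos (zero_lt_one.trans_le Fact.out).ne' hp'
  have hpp : p.toReal.HolderConjugate p'.toReal := by
    have := ENNReal.HolderTriple.toReal (p := p) (q := p') 1 hp0 hp'0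
    simpa using this
  have hinst : p'.HolderConjugate p := inferInstance
  intro Φ
  -- the pairing map
  set B : (i : ι) → StrongDual ℝ (E i) →L[ℝ] E i →L[ℝ] ℝ :=
    fun i => ContinuousLinearMap.id ℝ (StrongDual ℝ (E i)) with hB
  have hBK : ∀ i, ‖B i‖ ≤ (1 : NNReal) := fun i => ContinuousLinearMap.norm_id_le
  set T : lp (fun i => StrongDual ℝ (E i)) p' →L[ℝ] lp E p →L[ℝ] ℝ :=
    lp.dualPairing (H := ℝ) p' p B hBK with hT
  have hTsingle : ∀ (i : ι) (ψ : StrongDual ℝ (E i)) (y : lp E p),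
      T (lp.single p' i ψ) y = ψ (y i) := by
    intro i ψ y
    rw [hT, lp.dualPairing_apply, tsum_eq_single i]
    · simp [hB]
    · intro j hj
      simp [hB, Pi.single_eq_of_ne hj]
  set φ : StrongDual ℝ (lp (fun i => StrongDual ℝ (E i)) p') := Φ.comp T with hφ
  have hmem := memlp_coeff hpp.symm φ
  choose x hx using fun i => hE i (coeff φ i)
  have hxmem : Memℓp x p := by
    refine hmem.mono' (fun i => ?_)
    rw [← hx i]
    exact le_of_eq ((NormedSpace.inclusionInDoubleDualLi ℝ (E := E i)).norm_map (x i)).symm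
  refine ⟨⟨x, hxmem⟩, ?_⟩
  ext Λ
  rw [NormedSpace.dual_def]
  set l : lp (fun i => StrongDual ℝ (E i)) p' := ⟨coeff Λ, memlp_coeff hpp Λ⟩ with hl
  have hTl : T l = Λ := by
    apply lp.ext_continuousLinearMap hp
    intro i
    ext y
    simp only [ContinuousLinearMap.comp_apply, lp.singleContinuousLinearMap_apply]
    rw [hT, lp.dualPairing_apply, tsum_eq_single i]
    · simp [hB, hl, coeff_apply]
    · intro j hj
      simp [Pi.single_eq_of_ne hj]
  have h1 : HasSum (fun i => φ (lp.single p' i (l i))) (φ l) :=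
    (lp.hasSum_single hp' l).map φ φ.continuous
  have h2 : HasSum (fun i => Λ (lp.single p i (x i))) (Λ ⟨x, hxmem⟩) :=
    (lp.hasSum_single hp (⟨x, hxmem⟩ : lp E p)).map Λ Λ.continuous
  have h3 : (fun i => φ (lp.single p' i (l i))) = fun i => Λ (lp.single p i (x i)) := by
    funext i
    rw [← coeff_apply φ, ← coeff_apply Λ, ← hx i, NormedSpace.dual_def]
  rw [h3] at h1
  rw [h2.unique h1, hφ, ContinuousLinearMap.comp_apply, hTl]

end Reflexive

section Separable

variable {ι : Type*} {E : ι → Type*} [∀ i, NormedAddCommGroup (E i)] [∀ i, NormedSpace ℝ (E i)]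

theorem lp_separable [Countable ι] {p : ℝ≥0∞} [Fact (1 ≤ p)] (hp : p ≠ ⊤)
    [∀ i, TopologicalSpace.SeparableSpace (E i)] :
    TopologicalSpace.SeparableSpace (lp E p) := by
  classical
  rw [← TopologicalSpace.isSeparable_univ_iff]
  set s : Set (lp E p) := ⋃ i, Set.range (lp.single (E := E) p i) with hs
  have h1 : TopologicalSpace.IsSeparable s := by
    apply TopologicalSpace.IsSeparable.iUnion
    intro i
    rw [← Set.image_univ]
    exact (TopologicalSpace.IsSeparable.of_separableSpace _).image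
      (lp.isometry_single (E := E) (p := p) i).continuous
  have h2 : TopologicalSpace.IsSeparable (Submodule.span ℝ s : Set (lp E p)) := h1.span
  have h3 : TopologicalSpace.IsSeparable (closure (Submodule.span ℝ s : Set (lp E p))) := h2.closure
  refine h3.mono ?_
  intro x _
  have := lp.hasSum_single hp x
  refine mem_closure_of_tendsto this (Eventually.of_forall fun F => ?_)
  apply Submodule.sum_mem
  intro i _
  exact Submodule.subset_span (Set.mem_iUnion.2 ⟨i, Set.mem_range_self _⟩)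

end Separable

theorem real_reflexive : Function.Surjective (NormedSpace.inclusionInDoubleDual ℝ ℝ) := by
  intro Φ
  refine ⟨Φ (ContinuousLinearMap.id ℝ ℝ), ?_⟩
  ext Λ
  rw [NormedSpace.dual_def]
  have : Λ = (Λ 1) • ContinuousLinearMap.id ℝ ℝ := by
    ext; simp
  conv_rhs => rw [this, map_smul]
  conv_lhs => rw [this]
  simp

end Pool.Agent.Helper58
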