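import Pool.Agent.Helper58.PLine.Main

/-!
Sanity checks for `ThreeGroupsTheorem`: the hypothesis holds for concrete structures with many
quaternions and fails for a concrete structure.
-/

namespace Pool.Agent.Helper58.SanityETC

open QS

/-- `L_1`: the real numbers. -/
def real : QStruct where
  G := Multiplicative (ZMod 2)
  Q := ZMod 2
  neg := Multiplicative.ofAdd 1
  zero := 0
  q := fun a b => Multiplicative.toAdd a * Multiplicative.toAdd b
  exp_two := by decide
  surj := by decide
  qs1 := by decide
  qs2 := by decide
  qs3 := by decide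
  qs4 := by decide

/-- `L_{1,0}`: a finite field with `-1` a square. -/
def fin : QStruct where
  G := Multiplicative (ZMod 2)
  Q := Unit
  neg := 1
  zero := ()
  q := fun _ _ => ()
  exp_two := by decide
  surj := fun _ => ⟨1, 1, rfl⟩
  qs1 := fun _ => rfl
  qs2 := fun _ _ => rfl
  qs3 := fun _ _ _ => Iff.rfl
  qs4 := fun _ _ _ _ _ => ⟨1, rfl, rfl⟩

theorem real_threeGroups : ThreeGroups real := by
  unfold ThreeGroups real; decide

/-- the product of `n` copies of `real` -/
def power : ℕ → QStruct
  | 0 => real
  | n + 1 => prod real (power n)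

theorem power_threeGroups (n : ℕ) : ThreeGroups (power n) := by
  induction n with
  | zero => exact real_threeGroups
  | succ n ih => exact real_threeGroups.prod ih

/-- The structures `power n` have `2 ^ (n + 1)` quaternions. -/
theorem power_card (n : ℕ) : Nat.card (power n).Q = 2 ^ (n + 1) := by
  induction n with
  | zero => exact Nat.card_zmod 2
  | succ n ih =>
    change Nat.card (ZMod 2 × (power n).Q) = _
    rw [Nat.card_prod, Nat.card_zmod, ih]; ring

/-- The extension of a structure with `|G| = 4` and `q ≡ 0` does not satisfy the hypothesis. -/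
theorem not_threeGroups : ¬ ThreeGroups (ext (prod fin fin)) := by
  intro h
  have := ext_small h (Multiplicative.ofAdd (1 : ZMod 2), (1 : Multiplicative (ZMod 2)))
    ((1 : Multiplicative (ZMod 2)), Multiplicative.ofAdd (1 : ZMod 2))
  revert this
  change ¬ (_ ∨ _ ∨ _)
  push Not
  refine ⟨?_, ?_, ?_⟩
  · intro h; exact absurd (congrArg Prod.fst h) (by decide : ¬ Multiplicative.ofAdd (1 : ZMod 2) = 1)
  · intro h; exact absurd (congrArg Prod.snd h) (by decide : ¬ Multiplicative.ofAdd (1 : ZMod 2) = 1)
  · intro h; exact absurd (congrArg Prod.fst h) (by decide : ¬ Multiplicative.ofAdd (1 : ZMod 2) = 1)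

end Pool.Agent.Helper58.SanityETC
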