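import Pool.Agent.Lib_MP_d26ff6_al.Defs
import Pool.Agent.Helper58.PLine.Defs
import Pool.Agent.Helper58.PLine.Main

/-!
The Elementary Type Conjecture for finite quaternionic structures in which any three value
groups `V_x`, `V_y`, `V_{xy}` generate `G`.
-/

namespace Pool.Agent.Results.MP_d26ff6_al.ThreeGroupsTheorem

/-- Let `S` be a finite quaternionic structure and `V_x = {u : q (x, u) = 0}`. Then
`V_x V_y V_{xy} = G` for all `x, y` if and only if `S` is a direct product of totally degenerate
structures and of nondegenerate structures with two quaternions; in particular every such `S`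
is of elementary type. -/
theorem result (S : QS.QStruct) [Finite S.G] :
    (QS.ThreeGroups S ↔ QS.ProdType S) ∧ (QS.ThreeGroups S → QS.ElemType S) :=
  QS.threeGroups_main S

end Pool.Agent.Results.MP_d26ff6_al.ThreeGroupsTheorem
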